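import Mathlib
import Pool.Agent.R243.RT.Six

set_option autoImplicit false

/-!
# One point-independent radial approach with radii decreasing in the coordinate fails a.e.

A bounded analytic `f` on the infinite torus and one sequence of radii, decreasing in the coordinate
and tending to one in every coordinate, along which `f(r_k e^{iθ})` does not converge to
`f(e^{iθ})` for almost every `θ`.
-/

namespace Pool.Agent.Results.MP_8d7c8e_an.DecreasingRadiiFail

open Filter Topology MeasureTheory Set
open Pool.Agent.R243.RT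

theorem result : ∃ (f : (ℕ → UnitAddCircle) → ℂ) (R : ℕ → ℕ → ℝ), IsHInf f ∧
    (∀ k n, 0 ≤ R k n ∧ R k n < 1) ∧
    (∀ k, (Function.support (R k)).Finite) ∧
    (∀ n, Tendsto (fun k => R k n) atTop (𝓝 1)) ∧
    (∀ k, Antitone (R k)) ∧
    ∀ᵐ θ ∂(Measure.infinitePi fun _ : ℕ => (AddCircle.haarAddCircle : Measure UnitAddCircle)),
      ¬ Tendsto (fun k => poissonExt f (R k) θ) atTop (𝓝 (f θ)) := by
  obtain ⟨R, h1, h2, h3, h4, h5⟩ := main_indep
  exact ⟨ff, R, ff_hinf, h1, h2, h3, h4, h5⟩

end Pool.Agent.Results.MP_8d7c8e_an.DecreasingRadiiFail
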